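import Pool.Agent.K1H23.PC.Stm

set_option autoImplicit false

/-!
# Paths with two segments
-/

namespace Pool.Agent.K1H33.PC

open Pool.Agent.K1H23.PC

lemma pl_zero (q : ℕ → ℝ × ℝ) : pl q 0 = q 0 := by
  unfold pl
  rw [if_pos (by norm_num), zero_smul, add_zero]

lemma pl_two (q : ℕ → ℝ × ℝ) : pl q 2 = q 2 := by
  unfold pl
  rw [if_neg (by norm_num)]
  norm_num

lemma pl_one (q : ℕ → ℝ × ℝ) : pl q 1 = q 1 := by
  unfold pl
  rw [if_pos le_rfl, one_smul, add_sub_cancel]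

lemma pl_cont (q : ℕ → ℝ × ℝ) : Continuous (pl q) := by
  unfold pl
  apply Continuous.if_le
  · fun_prop
  · fun_prop
  · fun_prop
  · fun_prop
  · intro x hx
    rw [hx, one_smul, sub_self, zero_smul, add_zero, add_sub_cancel]

lemma path_eq (q : ℕ → ℝ × ℝ) : path 2 q = pl q '' Set.Icc 0 2 := by
  ext x
  unfold path
  constructor
  · rintro ⟨i, hi, hx⟩
    rw [segment_eq_image'] at hx
    obtain ⟨t, ⟨ht0, ht1⟩, rfl⟩ := hx
    interval_cases i
    · refine ⟨t, ⟨ht0, by linarith⟩, ?_⟩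
      unfold pl
      rw [if_pos ht1]
    · refine ⟨t + 1, ⟨by linarith, by linarith⟩, ?_⟩
      unfold pl
      by_cases h : t + 1 ≤ 1
      · have : t = 0 := by linarith
        subst this
        rw [if_pos h]
        simp
      · rw [if_neg h]
        simp
  · rintro ⟨s, ⟨hs0, hs2⟩, rfl⟩
    unfold pl
    by_cases h : s ≤ 1
    · rw [if_pos h]
      refine ⟨0, by norm_num, ?_⟩
      rw [segment_eq_image']
      exact ⟨s, ⟨hs0, h⟩, rfl⟩
    · rw [if_neg h]
      push Not at h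
      refine ⟨1, by norm_num, ?_⟩
      rw [segment_eq_image']
      exact ⟨s - 1, ⟨by linarith, by linarith⟩, rfl⟩

lemma smul_ne {a : ℝ} {v : ℝ × ℝ} (h : a • v = 0) (hv : v ≠ 0) : a = 0 :=
  (smul_eq_zero.1 h).resolve_right hv

lemma pl_inj {q : ℕ → ℝ × ℝ} (h : Simple 2 q) {s s' : ℝ} (hs : s ∈ Set.Icc (0 : ℝ) 2)
    (hs' : s' ∈ Set.Icc (0 : ℝ) 2) (he : pl q s = pl q s') : s = s' := by
  have h01 : q 1 - q 0 ≠ 0 := sub_ne_zero.2 (h.ne 0 (by norm_num)).symm
  have h12 : q 2 - q 1 ≠ 0 := sub_ne_zero.2 (h.ne 1 (by norm_num)).symm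
  have key : ∀ s s' : ℝ, s ∈ Set.Icc (0 : ℝ) 2 → s' ∈ Set.Icc (0 : ℝ) 2 → s ≤ 1 → 1 < s' → pl q s = pl q s' →
      False := by
    intro s s' hs hs' h1 h2 he
    unfold pl at he
    rw [if_pos h1, if_neg (not_le.2 h2)] at he
    have h3 : q 0 + s • (q 1 - q 0) ∈ segment ℝ (q 0) (q (0 + 1)) := by
      rw [segment_eq_image']
      exact ⟨s, ⟨hs.1, h1⟩, rfl⟩
    have h4 : q 0 + s • (q 1 - q 0) ∈ segment ℝ (q 1) (q (1 + 1)) := by
      rw [he, segment_eq_image']
      exact ⟨s' - 1, ⟨by linarith, by linarith [hs'.2]⟩, rfl⟩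
    have h5 := (h.meet 0 1 (by norm_num) (by norm_num) _ h3 h4).2
    rw [he] at h5
    have h6 : (s' - 1) • (q 2 - q 1) = 0 := by
      have : q 1 + (s' - 1) • (q 2 - q 1) - q 1 = 0 := by rw [h5, sub_self]
      rwa [add_sub_cancel_left] at this
    have := smul_ne h6 h12
    linarith
  rcases le_or_gt s 1 with h1 | h1 <;> rcases le_or_gt s' 1 with h2 | h2
  · unfold pl at he
    rw [if_pos h1, if_pos h2, add_right_inj] at he
    have h3 : (s - s') • (q 1 - q 0) = 0 := by rw [sub_smul, he, sub_self]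
    linarith [smul_ne h3 h01]
  · exact (key s s' hs hs' h1 h2 he).elim
  · exact (key s' s hs' hs h2 h1 he.symm).elim
  · unfold pl at he
    rw [if_neg (not_le.2 h1), if_neg (not_le.2 h2), add_right_inj] at he
    have h3 : ((s - 1) - (s' - 1)) • (q 2 - q 1) = 0 := by rw [sub_smul, he, sub_self]
    linarith [smul_ne h3 h12]

lemma pl_joined (q : ℕ → ℝ × ℝ) {a b : ℝ} (h : a ≤ b) :
    JoinedIn (pl q '' Set.Icc a b) (pl q a) (pl q b) := by
  have h1 : IsPathConnected (Set.Icc a b) := (convex_Icc a b).isPathConnected (Set.nonempty_Icc.2 h)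
  have h2 := h1.image (pl_cont q)
  exact h2.joinedIn _ ⟨a, ⟨le_rfl, h⟩, rfl⟩ _ ⟨b, ⟨h, le_rfl⟩, rfl⟩

lemma path_joined (q : ℕ → ℝ × ℝ) {x y : ℝ × ℝ} (hx : x ∈ path 2 q) (hy : y ∈ path 2 q) :
    JoinedIn (path 2 q) x y := by
  rw [path_eq] at hx hy ⊢
  have h1 : IsPathConnected (Set.Icc (0 : ℝ) 2) := (convex_Icc _ _).isPathConnected ⟨0, by norm_num⟩
  exact (h1.image (pl_cont q)).joinedIn _ hx _ hy

lemma mem_zero (q : ℕ → ℝ × ℝ) : q 0 ∈ path 2 q := by
  rw [path_eq]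
  exact ⟨0, by norm_num, pl_zero q⟩

lemma mem_two (q : ℕ → ℝ × ℝ) : q 2 ∈ path 2 q := by
  rw [path_eq]
  exact ⟨2, by norm_num, pl_two q⟩

/-! ### Edges of the graph -/

variable {n P : ℕ} {sg : ℕ → ℕ → Bool} {φ : ℕ → ℝ × ℝ} {q : ℕ × ℕ → ℕ → ℝ × ℝ}

/-- the ends are on the path -/
lemma ends_mem (hE : S_EDS) (hn : 1 ≤ n) (hD : Dr n P sg φ q) {e : Ed} (he : e.Valid n P) :
    φ (e.src n P) ∈ pth n P sg q e ∧ φ (e.tgt n P sg) ∈ pth n P sg q e := by
  have hmem : e.pair n P sg ∈ eds n P sg := (hE n P sg hn _).2 ⟨e, he, rfl⟩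
  have h0 := hD.poly.src _ hmem
  have h2 := hD.poly.tgt _ hmem
  unfold pth
  have m0 : φ (e.pair n P sg).1 ∈ path 2 (q (e.pair n P sg)) := by rw [← h0]; exact mem_zero _
  have m2 : φ (e.pair n P sg).2 ∈ path 2 (q (e.pair n P sg)) := by rw [← h2]; exact mem_two _
  rcases le_total (e.src n P) (e.tgt n P sg) with h | h
  · have e1 : e.pair n P sg = (e.src n P, e.tgt n P sg) := by
      unfold Ed.pair pr
      rw [min_eq_left h, max_eq_right h]
    rw [e1] at m0 m2 ⊢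
    exact ⟨m0, m2⟩
  · have e1 : e.pair n P sg = (e.tgt n P sg, e.src n P) := by
      unfold Ed.pair pr
      rw [min_eq_right h, max_eq_left h]
    rw [e1] at m0 m2 ⊢
    exact ⟨m2, m0⟩

lemma vR_inj {a b : ℕ} (h : vR a = vR b) : a = b := by
  unfold vR at h
  omega

/-- the topological lemma for a chord and a connected set -/
lemma meet_chord (hP : S_POS) (hE : S_EDS) (hn : 1 ≤ n) (hD : Dr n P sg φ q) (hT : LemT n P sg φ q)
    {u p s : ℕ} (hu : u < NN n P) (hp : p < 2 * H n P) (hs : s < 2 * H n P)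
    (hsep : ((posA n P u < p ∧ p < posB n P u) ∧ (s < posA n P u ∨ posB n P u < s)) ∨
      ((p < posA n P u ∨ posB n P u < p) ∧ (posA n P u < s ∧ s < posB n P u)))
    (S : Set (ℝ × ℝ)) (A : Set Ed)
    (hA : ∀ e ∈ A, e.Valid n P ∧ e.Main ∧ ¬ e.Inc n P sg (vR (posA n P u)) ∧ ¬ e.Inc n P sg (vR (posB n P u)))
    (hS : ∀ z ∈ S, ∃ e ∈ A, z ∈ pth n P sg q e) (hJ : JoinedIn S (φ (vR p)) (φ (vR s))) :
    (S ∩ pth n P sg q (Ed.ch u)).Nonempty := by
  obtain ⟨h1, h2, h3⟩ := (hP n P sg hn).1 u hu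
  have hv : (Ed.ch u).Valid n P := hu
  obtain ⟨m1, m2⟩ := ends_mem hE hn hD hv
  have hab : posA n P u < posB n P u := by omega
  have hj : JoinedIn (pth n P sg q (Ed.ch u)) (φ (vR (posA n P u))) (φ (vR (posB n P u))) :=
    path_joined _ m1 m2
  have hInc : ∀ i, i ≠ posA n P u → i ≠ posB n P u → ¬ (Ed.ch u).Inc n P sg (vR i) := by
    intro i hi1 hi2 h
    rcases h with h | h
    · exact hi1 (vR_inj h)
    · exact hi2 (vR_inj h)
  rcases hsep with ⟨⟨h4, h5⟩, h6⟩ | ⟨h4, h5, h6⟩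
  · exact hT (posA n P u) (posB n P u) p s hab h3 hp hs h4 h5 h6 S (pth n P sg q (Ed.ch u)) A {Ed.ch u} hA
      (by
        intro e he
        rw [Set.mem_singleton_iff] at he
        subst he
        exact ⟨hv, trivial, hInc p (by omega) (by omega), hInc s (by omega) (by omega)⟩) hS
      (fun z hz => ⟨Ed.ch u, rfl, hz⟩) hJ hj
  · exact hT (posA n P u) (posB n P u) s p hab h3 hs hp h5 h6 h4 S (pth n P sg q (Ed.ch u)) A {Ed.ch u} hA
      (by
        intro e he
        rw [Set.mem_singleton_iff] at he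
        subst he
        exact ⟨hv, trivial, hInc s (by omega) (by omega), hInc p (by omega) (by omega)⟩) hS
      (fun z hz => ⟨Ed.ch u, rfl, hz⟩) hJ.symm hj

/-- chords and stars are not incident with the ends of other chords -/
lemma notInc_ch (hP : S_POS) (hn : 1 ≤ n) {u u' : ℕ} (hu : u < NN n P) (hu' : u' < NN n P) (hne : u ≠ u') :
    ¬ (Ed.ch u').Inc n P sg (vR (posA n P u)) ∧ ¬ (Ed.ch u').Inc n P sg (vR (posB n P u)) := by
  obtain ⟨h1, h2, h3⟩ := (hP n P sg hn).1 u hu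
  obtain ⟨h1', h2', h3'⟩ := (hP n P sg hn).1 u' hu'
  have hmono := (hP n P sg hn).2.1
  have hne' : posA n P u ≠ posA n P u' := by
    rcases Nat.lt_or_gt_of_ne hne with h | h
    · exact (hmono u hu u' hu' h).ne
    · exact (hmono u' hu' u hu h).ne'
  have hB : posB n P u = H n P + posA n P u := rfl
  have hB' : posB n P u' = H n P + posA n P u' := rfl
  constructor
  · rintro (h | h)
    · exact hne' (vR_inj h)
    · have := vR_inj h
      omega
  · rintro (h | h)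
    · have := vR_inj h
      omega
    · have := vR_inj h
      omega

lemma notInc_st (hP : S_POS) (hn : 1 ≤ n) {u j m : ℕ} (hu : u < NN n P) (hm : m < 2 * n) :
    ¬ (Ed.st j m).Inc n P sg (vR (posA n P u)) ∧ ¬ (Ed.st j m).Inc n P sg (vR (posB n P u)) := by
  obtain ⟨_, _, h3⟩ := (hP n P sg hn).2.2.1 j m hm
  obtain ⟨h4, h5, _⟩ := h3 u hu
  constructor
  · rintro (h | h)
    · have : vR (posA n P u) = vP j := h
      unfold vR vP at this
      omega
    · exact h4 (vR_inj h).symm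
  · rintro (h | h)
    · have : vR (posB n P u) = vP j := h
      unfold vR vP at this
      omega
    · exact h5 (vR_inj h).symm

theorem t_LB (hP : S_POS) (hE : S_EDS) : S_LB := by
  intro n P sg φ q hn hD hT
  have hmono := (hP n P sg hn).2.1
  constructor
  · -- chords
    have key : ∀ u < NN n P, ∀ u' < NN n P, u < u' →
        (pth n P sg q (Ed.ch u') ∩ pth n P sg q (Ed.ch u)).Nonempty := by
      intro u hu u' hu' hlt
      obtain ⟨h1, h2, h3⟩ := (hP n P sg hn).1 u hu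
      obtain ⟨h1', h2', h3'⟩ := (hP n P sg hn).1 u' hu'
      have hlt' := hmono u hu u' hu' hlt
      have hB : posB n P u = H n P + posA n P u := rfl
      have hB' : posB n P u' = H n P + posA n P u' := rfl
      have hv' : (Ed.ch u').Valid n P := hu'
      obtain ⟨m1, m2⟩ := ends_mem hE hn hD hv'
      refine meet_chord hP hE hn hD hT (p := posA n P u') (s := posB n P u') hu (by omega) h3'
        (Or.inl ⟨⟨hlt', by omega⟩, Or.inr (by omega)⟩) _ {Ed.ch u'} ?_ (fun z hz => ⟨_, rfl, hz⟩)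
        (path_joined _ m1 m2)
      intro e he
      rw [Set.mem_singleton_iff] at he
      subst he
      obtain ⟨n1, n2⟩ := notInc_ch (sg := sg) hP hn hu hu' hlt.ne
      exact ⟨hv', trivial, n1, n2⟩
    intro u hu u' hu' hne
    rcases Nat.lt_or_gt_of_ne hne with h | h
    · rw [Set.inter_comm]
      exact key u hu u' hu' h
    · exact key u' hu' u hu h
  · intro j hj u hu m hm m' hm' hab hab'
    obtain ⟨p1, _, p3⟩ := (hP n P sg hn).2.2.1 j m hm
    obtain ⟨_, _, p4, _⟩ := p3 u hu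
    obtain ⟨p1', _, p3'⟩ := (hP n P sg hn).2.2.1 j m' hm'
    obtain ⟨_, _, _, p5⟩ := p3' u hu
    have hv : (Ed.st j m).Valid n P := ⟨hj, hm⟩
    have hv' : (Ed.st j m').Valid n P := ⟨hj, hm'⟩
    obtain ⟨m1, m2⟩ := ends_mem hE hn hD hv
    obtain ⟨m1', m2'⟩ := ends_mem hE hn hD hv'
    have hJ : JoinedIn (pth n P sg q (Ed.st j m') ∪ pth n P sg q (Ed.st j m)) (φ (vR (posS n P sg j m')))
        (φ (vR (posS n P sg j m))) := by
      have j1 : JoinedIn (pth n P sg q (Ed.st j m')) (φ (vR (posS n P sg j m'))) (φ (vP j)) :=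
        path_joined _ m2' m1'
      have j2 : JoinedIn (pth n P sg q (Ed.st j m)) (φ (vP j)) (φ (vR (posS n P sg j m))) :=
        path_joined _ m1 m2
      exact (j1.mono Set.subset_union_left).trans (j2.mono Set.subset_union_right)
    obtain ⟨z, hz1, hz2⟩ := meet_chord hP hE hn hD hT hu p1' p1 (Or.inl ⟨p5.1 hab', p4.1 hab⟩)
      _ {Ed.st j m', Ed.st j m} (by
        rintro e (rfl | he)
        · obtain ⟨n1, n2⟩ := notInc_st (sg := sg) (j := j) hP hn hu hm'
          exact ⟨hv', trivial, n1, n2⟩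
        · rw [Set.mem_singleton_iff] at he
          subst he
          obtain ⟨n1, n2⟩ := notInc_st (sg := sg) (j := j) hP hn hu hm
          exact ⟨hv, trivial, n1, n2⟩)
      (by
        rintro z (hz | hz)
        · exact ⟨_, Or.inl rfl, hz⟩
        · exact ⟨_, Or.inr rfl, hz⟩) hJ
    rcases hz1 with hz1 | hz1
    · exact Or.inr ⟨z, hz1, hz2⟩
    · exact Or.inl ⟨z, hz1, hz2⟩

end Pool.Agent.K1H33.PC
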