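import Pool.Agent.K1H33.PC.Pth

set_option autoImplicit false

/-!
# The orders of the crossings along the chords
-/

namespace Pool.Agent.K1H33.PC

open Pool.Agent.K1H23.PC

lemma nonpar (o d o' d' : ℝ × ℝ) (t t' : ℝ) (ht0 : 0 < t) (ht1 : t < 1) (ht0' : 0 < t') (ht1' : t' < 1)
    (he : o + t • d = o' + t' • d') (hd : d ≠ 0) (hd' : d' ≠ 0)
    (hu : ∀ s s' : ℝ, 0 ≤ s → s ≤ 1 → 0 ≤ s' → s' ≤ 1 → o + s • d = o' + s' • d' → s = t) :
    cr d d' ≠ 0 := by
  intro hcr
  obtain ⟨l, hl⟩ : ∃ l : ℝ, d' = l • d := by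
    obtain ⟨a, b⟩ := d
    obtain ⟨c, e⟩ := d'
    unfold cr at hcr
    simp only at hcr
    by_cases ha : a = 0
    · have hb : b ≠ 0 := by
        rintro rfl
        apply hd
        rw [ha]
        rfl
      refine ⟨e / b, ?_⟩
      rw [ha] at hcr ⊢
      have hc : c = 0 := by
        have : b * c = 0 := by linarith
        exact (mul_eq_zero.1 this).resolve_left hb
      ext
      · simp [hc]
      · simp only [Prod.smul_mk, smul_eq_mul]
        rw [div_mul_cancel₀ _ hb]
    · refine ⟨c / a, ?_⟩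
      ext
      · simp only [Prod.smul_mk, smul_eq_mul]
        rw [div_mul_cancel₀ _ ha]
      · simp only [Prod.smul_mk, smul_eq_mul]
        rw [div_mul_eq_mul_div, eq_div_iff ha]
        linarith
  have hl0 : l ≠ 0 := by
    rintro rfl
    rw [zero_smul] at hl
    exact hd' hl
  have hlp : 0 < |l| := abs_pos.2 hl0
  obtain ⟨ε, hε⟩ : ∃ ε, ε = min (1 - t) (|l| * min t' (1 - t')) := ⟨_, rfl⟩
  have hε0 : 0 < ε := by
    rw [hε]
    apply lt_min (by linarith)
    apply mul_pos hlp
    exact lt_min ht0' (by linarith)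
  have hε1 : ε ≤ 1 - t := by rw [hε]; exact min_le_left _ _
  have hε2 : ε ≤ |l| * min t' (1 - t') := by rw [hε]; exact min_le_right _ _
  have hq : |ε / l| ≤ min t' (1 - t') := by
    rw [abs_div, abs_of_pos hε0, div_le_iff₀ hlp, mul_comm]
    exact hε2
  have hq1 : |ε / l| ≤ t' := hq.trans (min_le_left _ _)
  have hq2 : |ε / l| ≤ 1 - t' := hq.trans (min_le_right _ _)
  have hq3 := abs_le.1 hq1
  have hq4 := abs_le.1 hq2
  have := hu (t + ε) (t' + ε / l) (by linarith) (by linarith) (by linarith) (by linarith) (by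
    rw [add_smul, add_smul, ← add_assoc, ← add_assoc, he]
    congr 1
    conv_rhs => rw [hl]
    rw [smul_smul, div_mul_cancel₀ _ hl0])
  linarith

theorem t_TF (hP : S_POS) (hE : S_EDS) : S_TF := by
  intro n P sg φ q w hn hD hT hw hG
  obtain ⟨hG1, hG2⟩ := hG
  obtain ⟨pos1, pos2, pos3, _⟩ := hP n P sg hn
  have hWpos : 0 < W n P := lt_of_le_of_lt (Nat.zero_le _) hw
  have huc : ∀ c < n, c * W n P + w < NN n P := by
    intro c hc
    unfold NN
    calc c * W n P + w < c * W n P + W n P := by omega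
      _ = (c + 1) * W n P := by ring
      _ ≤ n * W n P := Nat.mul_le_mul_right _ hc
  have hdiv : ∀ c, (c * W n P + w) / W n P = c := by
    intro c
    rw [Nat.mul_comm, Nat.mul_add_div hWpos, Nat.div_eq_of_lt hw, add_zero]
  have hpA : ∀ c < n, ∀ c' < n, c < c' → posA n P (c * W n P + w) < posA n P (c' * W n P + w) := by
    intro c hc c' hc' h
    apply pos2 _ (huc c hc) _ (huc c' hc')
    have : c * W n P < c' * W n P := Nat.mul_lt_mul_of_pos_right h hWpos
    omega
  have hpB : ∀ c, posB n P (c * W n P + w) = H n P + posA n P (c * W n P + w) := fun c => rfl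
  have hune : ∀ c c' : ℕ, c ≠ c' → c * W n P + w ≠ c' * W n P + w := by
    intro c c' hne h
    apply hne
    have := congrArg (· / W n P) h
    simp only [hdiv] at this
    exact this
  obtain ⟨Q, hQ⟩ : ∃ Q : ℕ → ℕ → ℝ × ℝ, ∀ c, Q c = q ((Ed.ch (c * W n P + w)).pair n P sg) := ⟨_, fun _ => rfl⟩
  have hpth : ∀ c, pth n P sg q (Ed.ch (c * W n P + w)) = path 2 (Q c) := by
    intro c
    rw [hQ]
    rfl
  have hval : ∀ c < n, (Ed.ch (c * W n P + w)).Valid n P := fun c hc => huc c hc
  have hmem : ∀ c < n, (Ed.ch (c * W n P + w)).pair n P sg ∈ eds n P sg := fun c hc =>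
    (hE n P sg hn _).2 ⟨_, hval c hc, rfl⟩
  have hpair : ∀ c < n, (Ed.ch (c * W n P + w)).pair n P sg =
      (vR (posA n P (c * W n P + w)), vR (posB n P (c * W n P + w))) := by
    intro c hc
    obtain ⟨h1, h2, h3⟩ := pos1 _ (huc c hc)
    have h4 : vR (posA n P (c * W n P + w)) ≤ vR (posB n P (c * W n P + w)) := by
      unfold vR
      omega
    unfold Ed.pair pr
    show (min (vR (posA n P (c * W n P + w))) (vR (posB n P (c * W n P + w))),
      max (vR (posA n P (c * W n P + w))) (vR (posB n P (c * W n P + w)))) = _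
    rw [min_eq_left h4, max_eq_right h4]
  have hQ0 : ∀ c < n, Q c 0 = φ (vR (posA n P (c * W n P + w))) := by
    intro c hc
    rw [hQ, hD.poly.src _ (hmem c hc), hpair c hc]
  have hQ2 : ∀ c < n, Q c 2 = φ (vR (posB n P (c * W n P + w))) := by
    intro c hc
    rw [hQ, hD.poly.tgt _ (hmem c hc), hpair c hc]
  have hsim : ∀ c < n, Simple 2 (Q c) := by
    intro c hc
    rw [hQ]
    exact hD.poly.simple _ (hmem c hc)
  have hvts : ∀ i, i < 2 * H n P → vR i ∈ vts n P := by
    intro i hi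
    unfold vts
    simp only [List.mem_cons, List.mem_append, List.mem_map, List.mem_range]
    exact Or.inr (Or.inl (Or.inl (Or.inl ⟨i, hi, rfl⟩)))
  -- ends are not on other chords
  have havoid : ∀ c < n, ∀ c' < n, c ≠ c' → Q c 0 ∉ path 2 (Q c') ∧ Q c 2 ∉ path 2 (Q c') := by
    intro c hc c' hc' hne
    obtain ⟨n1, n2⟩ := notInc_ch (sg := sg) hP hn (huc c hc) (huc c' hc') (hune c c' hne)
    obtain ⟨h1, h2, h3⟩ := pos1 _ (huc c hc)
    have key : ∀ v, v ∈ vts n P → ¬ (Ed.ch (c' * W n P + w)).Inc n P sg v → φ v ∉ path 2 (Q c') := by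
      intro v hv hinc
      rw [hQ]
      apply hD.poly.avoid _ (hmem c' hc') v hv
      · rw [hpair c' hc']
        intro h
        exact hinc (Or.inl h)
      · rw [hpair c' hc']
        intro h
        exact hinc (Or.inr h)
    rw [hQ0 c hc, hQ2 c hc]
    exact ⟨key _ (hvts _ (by omega)) n1, key _ (hvts _ h3) n2⟩
  -- parameters
  have hτ : ∀ c c' : ℕ, ∃ t : ℝ, c < n → c' < n → c ≠ c' → t ∈ Set.Icc (0 : ℝ) 2 ∧ pl (Q c) t ∈ path 2 (Q c') := by
    intro c c'
    by_cases h : c < n ∧ c' < n ∧ c ≠ c'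
    · obtain ⟨h1, h2, h3⟩ := h
      obtain ⟨z, ⟨hz1, hz2⟩, _⟩ := hG1 c h1 c' h2 h3
      rw [hpth, path_eq] at hz1
      rw [hpth] at hz2
      obtain ⟨t, ht, rfl⟩ := hz1
      exact ⟨t, fun _ _ _ => ⟨ht, hz2⟩⟩
    · refine ⟨0, fun h1 h2 h3 => absurd ⟨h1, h2, h3⟩ h⟩
  choose τ hτ' using hτ
  have hplm : ∀ c, ∀ t ∈ Set.Icc (0 : ℝ) 2, pl (Q c) t ∈ path 2 (Q c) := by
    intro c t ht
    rw [path_eq]
    exact ⟨t, ht, rfl⟩
  -- uniqueness
  have huniq : ∀ c < n, ∀ c' < n, c ≠ c' → ∀ s ∈ Set.Icc (0 : ℝ) 2, pl (Q c) s ∈ path 2 (Q c') → s = τ c c' := by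
    intro c hc c' hc' hne s hs hmem'
    obtain ⟨ht, ht2⟩ := hτ' c c' hc hc' hne
    have := (hG1 c hc c' hc' hne).unique (y₁ := pl (Q c) s) (y₂ := pl (Q c) (τ c c'))
      (by rw [hpth, hpth]; exact ⟨hplm c s hs, hmem'⟩) (by rw [hpth, hpth]; exact ⟨hplm c _ ht, ht2⟩)
    exact pl_inj (hsim c hc) hs ht this
  have hsame : ∀ c < n, ∀ c' < n, c ≠ c' → pl (Q c) (τ c c') = pl (Q c') (τ c' c) := by
    intro c hc c' hc' hne
    obtain ⟨ht, ht2⟩ := hτ' c c' hc hc' hne
    obtain ⟨ht', ht2'⟩ := hτ' c' c hc' hc hne.symm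
    exact (hG1 c hc c' hc' hne).unique
      (by rw [hpth, hpth]; exact ⟨hplm c _ ht, ht2⟩) (by rw [hpth, hpth]; exact ⟨ht2', hplm c' _ ht'⟩)
  have hpos : ∀ c < n, ∀ c' < n, c ≠ c' → 0 < τ c c' ∧ τ c c' < 2 := by
    intro c hc c' hc' hne
    obtain ⟨ht, ht2⟩ := hτ' c c' hc hc' hne
    obtain ⟨a1, a2⟩ := havoid c hc c' hc' hne
    constructor
    · apply lt_of_le_of_ne ht.1
      intro h
      rw [← h, pl_zero] at ht2
      exact a1 ht2
    · apply lt_of_le_of_ne ht.2
      intro h
      rw [h, pl_two] at ht2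
      exact a2 ht2
  -- the comparison with a star edge
  have hJ0 : ∀ c < n, φ (vR (posA n P (c * W n P + w))) = pl (Q c) 0 := by
    intro c hc
    rw [pl_zero, hQ0 c hc]
  have hJ2 : ∀ c < n, φ (vR (posB n P (c * W n P + w))) = pl (Q c) 2 := by
    intro c hc
    rw [pl_two, hQ2 c hc]
  have cmp : ∀ j < P, ∀ m < 2 * n, ∀ x < n, ∀ u < n, x ≠ u → ∀ a b : ℝ, a ≤ b → 0 ≤ a → b ≤ 2 →
      ∀ pE : ℕ, pE < 2 * H n P →
      (∃ e, (e = a ∨ e = b) ∧ φ (vR pE) = pl (Q x) e ∧ ∃ f, (f = a ∨ f = b) ∧ pl (Q x) f ∈ pth n P sg q (Ed.st j m)) →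
      pth n P sg q (Ed.st j m) ∩ pth n P sg q (Ed.ch (u * W n P + w)) = ∅ →
      ((posA n P (u * W n P + w) < pE ∧ pE < posB n P (u * W n P + w)) ∧
          (posS n P sg j m < posA n P (u * W n P + w) ∨ posB n P (u * W n P + w) < posS n P sg j m)) ∨
        ((pE < posA n P (u * W n P + w) ∨ posB n P (u * W n P + w) < pE) ∧
          (posA n P (u * W n P + w) < posS n P sg j m ∧ posS n P sg j m < posB n P (u * W n P + w))) →
      a ≤ τ x u ∧ τ x u ≤ b := by
    intro j hj m hm x hx u hu hne a b hab ha hb pE hpE hends hdis hsep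
    obtain ⟨e, he, hφ, f, hf, hfs⟩ := hends
    obtain ⟨p1, _, _⟩ := pos3 j m hm
    have hv : (Ed.st j m).Valid n P := ⟨hj, hm⟩
    obtain ⟨_, m2⟩ := ends_mem hE hn hD hv
    have hjoin : JoinedIn (pl (Q x) '' Set.Icc a b) (pl (Q x) e) (pl (Q x) f) := by
      have h1 : IsPathConnected (Set.Icc a b) := (convex_Icc a b).isPathConnected (Set.nonempty_Icc.2 hab)
      have h2 := h1.image (pl_cont (Q x))
      apply h2.joinedIn
      · rcases he with rfl | rfl
        · exact ⟨_, ⟨le_rfl, hab⟩, rfl⟩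
        · exact ⟨_, ⟨hab, le_rfl⟩, rfl⟩
      · rcases hf with rfl | rfl
        · exact ⟨_, ⟨le_rfl, hab⟩, rfl⟩
        · exact ⟨_, ⟨hab, le_rfl⟩, rfl⟩
    have hjoin2 : JoinedIn (pth n P sg q (Ed.st j m)) (pl (Q x) f) (φ (vR (posS n P sg j m))) :=
      path_joined _ hfs m2
    have hJ : JoinedIn (pl (Q x) '' Set.Icc a b ∪ pth n P sg q (Ed.st j m)) (φ (vR pE))
        (φ (vR (posS n P sg j m))) := by
      rw [hφ]
      exact (hjoin.mono Set.subset_union_left).trans (hjoin2.mono Set.subset_union_right)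
    have hsub : ∀ z ∈ pl (Q x) '' Set.Icc a b, z ∈ pth n P sg q (Ed.ch (x * W n P + w)) := by
      rintro z ⟨s, hs, rfl⟩
      rw [hpth]
      exact hplm x s ⟨ha.trans hs.1, hs.2.trans hb⟩
    obtain ⟨z, hz1, hz2⟩ := meet_chord hP hE hn hD hT (huc u hu) hpE p1 hsep
      (pl (Q x) '' Set.Icc a b ∪ pth n P sg q (Ed.st j m)) {Ed.ch (x * W n P + w), Ed.st j m}
      (by
        rintro e (rfl | he)
        · obtain ⟨n1, n2⟩ := notInc_ch (sg := sg) hP hn (huc u hu) (huc x hx) (hune u x hne.symm)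
          exact ⟨hval x hx, trivial, n1, n2⟩
        · rw [Set.mem_singleton_iff] at he
          subst he
          obtain ⟨n1, n2⟩ := notInc_st (sg := sg) (j := j) hP hn (huc u hu) hm
          exact ⟨hv, trivial, n1, n2⟩)
      (by
        rintro z (hz | hz)
        · exact ⟨_, Or.inl rfl, hsub z hz⟩
        · exact ⟨_, Or.inr rfl, hz⟩) hJ
    rcases hz1 with hz1 | hz1
    · obtain ⟨s, hs, rfl⟩ := hz1
      rw [hpth] at hz2
      have := huniq x hx u hu hne s ⟨ha.trans hs.1, hs.2.trans hb⟩ hz2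
      rw [← this]
      exact hs
    · exfalso
      have : z ∈ pth n P sg q (Ed.st j m) ∩ pth n P sg q (Ed.ch (u * W n P + w)) := ⟨hz1, hz2⟩
      rw [hdis] at this
      exact this
  -- the final comparison
  have fin : ∀ j < P, ∀ m < 2 * n, ∀ x < n, ∀ u < n, ∀ u' < n, x ≠ u → x ≠ u' →
      ab n sg j m x ≠ sg j x → ab n sg j m u = sg j u → ab n sg j m u' = sg j u' →
      (((posA n P (u * W n P + w) < posA n P (x * W n P + w) ∧
          posA n P (x * W n P + w) < posB n P (u * W n P + w)) ∧ ab n sg j m u = true) ∨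
        ((posA n P (x * W n P + w) < posA n P (u * W n P + w) ∨
          posB n P (u * W n P + w) < posA n P (x * W n P + w)) ∧ ab n sg j m u = false)) →
      (((posA n P (u' * W n P + w) < posB n P (x * W n P + w) ∧
          posB n P (x * W n P + w) < posB n P (u' * W n P + w)) ∧ ab n sg j m u' = true) ∨
        ((posB n P (x * W n P + w) < posA n P (u' * W n P + w) ∨
          posB n P (u' * W n P + w) < posB n P (x * W n P + w)) ∧ ab n sg j m u' = false)) →
      τ x u < τ x u' := by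
    intro j hj m hm x hx u hu u' hu' hxu hxu' hab0 hab1 hab2 hs1 hs2
    obtain ⟨g1, g2⟩ := hG2 j hj x hx m hm
    obtain ⟨z, ⟨hz1, hz2⟩, _⟩ := g2 hab0
    rw [hpth, path_eq] at hz2
    obtain ⟨σ, hσ, rfl⟩ := hz2
    obtain ⟨_, _, p3⟩ := pos3 j m hm
    obtain ⟨_, _, p4, p5⟩ := p3 _ (huc u hu)
    obtain ⟨_, _, p4', p5'⟩ := p3 _ (huc u' hu')
    rw [hdiv] at p4 p5 p4' p5'
    have d1 := (hG2 j hj u hu m hm).1 hab1
    have d2 := (hG2 j hj u' hu' m hm).1 hab2
    obtain ⟨h1, h2, h3⟩ := pos1 _ (huc x hx)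
    have c1 := cmp j hj m hm x hx u hu hxu 0 σ hσ.1 le_rfl hσ.2 (posA n P (x * W n P + w)) (by omega)
      ⟨0, Or.inl rfl, hJ0 x hx, σ, Or.inr rfl, hz1⟩ d1 (by
        rcases hs1 with ⟨h, h'⟩ | ⟨h, h'⟩
        · exact Or.inl ⟨h, p4.1 h'⟩
        · exact Or.inr ⟨h, p5.1 h'⟩)
    have c2 := cmp j hj m hm x hx u' hu' hxu' σ 2 hσ.2 hσ.1 le_rfl (posB n P (x * W n P + w)) h3
      ⟨2, Or.inr rfl, hJ2 x hx, σ, Or.inl rfl, hz1⟩ d2 (by
        rcases hs2 with ⟨h, h'⟩ | ⟨h, h'⟩
        · exact Or.inl ⟨h, p4'.1 h'⟩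
        · exact Or.inr ⟨h, p5'.1 h'⟩)
    have hnm : ∀ v < n, x ≠ v → pth n P sg q (Ed.st j m) ∩ pth n P sg q (Ed.ch (v * W n P + w)) = ∅ →
        τ x v ≠ σ := by
      intro v hv hxv hd h
      obtain ⟨_, t2⟩ := hτ' x v hx hv hxv
      rw [h] at t2
      have : pl (Q x) σ ∈ pth n P sg q (Ed.st j m) ∩ pth n P sg q (Ed.ch (v * W n P + w)) :=
        ⟨hz1, by rw [hpth]; exact t2⟩
      rw [hd] at this
      exact this
    have l1 : τ x u < σ := lt_of_le_of_ne c1.2 (hnm u hu hxu d1)
    have l2 : σ < τ x u' := lt_of_le_of_ne c2.1 (hnm u' hu' hxu' d2).symm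
    exact l1.trans l2
  refine ⟨Q, τ, fun c hc => ⟨(hsim c hc).ne 0 (by norm_num), (hsim c hc).ne 1 (by norm_num)⟩, ?_, ?_⟩
  · intro c hc c' hc' hne
    refine ⟨hsame c hc c' hc' hne, ?_, ?_⟩
    · intro h1 h2
      obtain ⟨p0, _⟩ := hpos c hc c' hc' hne
      obtain ⟨p0', _⟩ := hpos c' hc' c hc hne.symm
      apply nonpar (Q c 0) _ (Q c' 0) _ (τ c c') (τ c' c) p0 h1 p0' h2
      · have := hsame c hc c' hc' hne
        unfold pl at this
        rwa [if_pos h1.le, if_pos h2.le] at this
      · exact sub_ne_zero.2 ((hsim c hc).ne 0 (by norm_num)).symm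
      · exact sub_ne_zero.2 ((hsim c' hc').ne 0 (by norm_num)).symm
      · intro s s' hs0 hs1 hs0' hs1' he
        apply huniq c hc c' hc' hne s ⟨hs0, by linarith⟩
        have e1 : pl (Q c) s = pl (Q c') s' := by
          unfold pl
          rw [if_pos hs1, if_pos hs1', he]
        rw [e1]
        exact hplm c' s' ⟨hs0', by linarith⟩
    · intro h1 h2
      obtain ⟨_, p2⟩ := hpos c hc c' hc' hne
      obtain ⟨_, p2'⟩ := hpos c' hc' c hc hne.symm
      apply nonpar (Q c 1) _ (Q c' 1) _ (τ c c' - 1) (τ c' c - 1) (by linarith) (by linarith) (by linarith)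
        (by linarith)
      · have := hsame c hc c' hc' hne
        unfold pl at this
        rwa [if_neg (not_le.2 h1), if_neg (not_le.2 h2)] at this
      · exact sub_ne_zero.2 ((hsim c hc).ne 1 (by norm_num)).symm
      · exact sub_ne_zero.2 ((hsim c' hc').ne 1 (by norm_num)).symm
      · intro s s' hs0 hs1 hs0' hs1' he
        have hpl : ∀ (c : ℕ) (s : ℝ), 0 ≤ s → pl (Q c) (s + 1) = Q c 1 + s • (Q c 2 - Q c 1) := by
          intro c s hs
          rcases hs.eq_or_lt with h0 | h0
          · rw [← h0, zero_add, pl_one, zero_smul, add_zero]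
          · unfold pl
            rw [if_neg (by linarith), add_sub_cancel_right]
        have := huniq c hc c' hc' hne (s + 1) ⟨by linarith, by linarith⟩ (by
          rw [hpl c s hs0, he, ← hpl c' s' hs0']
          exact hplm c' _ ⟨by linarith, by linarith⟩)
        linarith
  · intro j hj x y z hxy hyz hz
    have hy : y < n := by omega
    have hx : x < n := by omega
    have A1 := hpA x hx y hy hxy
    have A2 := hpA y hy z hz hyz
    have hA : ∀ c < n, posA n P (c * W n P + w) < H n P := fun c hc => (pos1 _ (huc c hc)).1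
    have Hx := hA x hx
    have Hy := hA y hy
    have Hz := hA z hz
    have Bx := hpB x
    have By := hpB y
    have Bz := hpB z
    -- values of `ab`
    have abl : ∀ m c, m < n → m ≠ c → ab n sg j m c = decide (m < c) := by
      intro m c hm hne
      unfold ab
      rw [if_neg (by omega), if_pos hm]
    have abh : ∀ m c, c < n → m ≠ c → ab n sg j (n + m) c = decide (c < m) := by
      intro m c hc hne
      unfold ab
      rw [if_neg (by omega), if_neg (by omega)]
      congr 1
      apply propext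
      omega
    have abs1 : ∀ c, ab n sg j c c = sg j c := by
      intro c
      unfold ab
      rw [if_pos (Or.inl rfl)]
    have abs2 : ∀ c, ab n sg j (n + c) c = sg j c := by
      intro c
      unfold ab
      rw [if_pos (Or.inr rfl)]
    constructor
    · intro sx sy sz
      refine ⟨?_, ?_, ?_⟩
      · -- chord x, star n + y
        apply fin j hj (n + y) (by omega) x hx z hz y hy (by omega) (by omega)
        · rw [abh y x hx (by omega), sx]; simp; omega
        · rw [abh y z hz (by omega), sz]; simp; omega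
        · exact abs2 y
        · right
          exact ⟨Or.inl (by omega), by rw [abh y z hz (by omega)]; simp; omega⟩
        · left
          exact ⟨⟨by omega, by omega⟩, by rw [abs2, sy]⟩
      · -- chord y, star z
        apply fin j hj z (by omega) y hy z hz x hx (by omega) (by omega)
        · rw [abl z y hz (by omega), sy]; simp; omega
        · exact abs1 z
        · rw [abl z x hz (by omega), sx]; simp; omega
        · right
          exact ⟨Or.inl (by omega), by rw [abs1, sz]⟩
        · right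
          exact ⟨Or.inr (by omega), by rw [abl z x hz (by omega)]; simp; omega⟩
      · -- chord z, star y
        apply fin j hj y (by omega) z hz y hy x hx (by omega) (by omega)
        · rw [abl y z hy (by omega), sz]; simp; omega
        · exact abs1 y
        · rw [abl y x hy (by omega), sx]; simp; omega
        · left
          exact ⟨⟨by omega, by omega⟩, by rw [abs1, sy]⟩
        · right
          exact ⟨Or.inr (by omega), by rw [abl y x hy (by omega)]; simp; omega⟩
    · intro sx sy sz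
      refine ⟨?_, ?_, ?_⟩
      · -- chord x, star y
        apply fin j hj y (by omega) x hx y hy z hz (by omega) (by omega)
        · rw [abl y x hy (by omega), sx]; simp; omega
        · exact abs1 y
        · rw [abl y z hy (by omega), sz]; simp; omega
        · right
          exact ⟨Or.inl (by omega), by rw [abs1, sy]⟩
        · left
          exact ⟨⟨by omega, by omega⟩, by rw [abl y z hy (by omega)]; simp; omega⟩
      · -- chord y, star n + z
        apply fin j hj (n + z) (by omega) y hy x hx z hz (by omega) (by omega)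
        · rw [abh z y hy (by omega), sy]; simp; omega
        · rw [abh z x hx (by omega), sx]; simp; omega
        · exact abs2 z
        · left
          exact ⟨⟨by omega, by omega⟩, by rw [abh z x hx (by omega)]; simp; omega⟩
        · left
          exact ⟨⟨by omega, by omega⟩, by rw [abs2, sz]⟩
      · -- chord z, star n + y
        apply fin j hj (n + y) (by omega) z hz x hx y hy (by omega) (by omega)
        · rw [abh y z hz (by omega), sz]; simp; omega
        · rw [abh y x hx (by omega), sx]; simp; omega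
        · exact abs2 y
        · left
          exact ⟨⟨by omega, by omega⟩, by rw [abh y x hx (by omega)]; simp; omega⟩
        · right
          exact ⟨Or.inr (by omega), by rw [abs2, sy]⟩

end Pool.Agent.K1H33.PC
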